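import Pool.Agent.X7.Jsat.Convert

namespace Pool.Agent.Results.MP_eab1c6_co.FourNumbers

open Pool.Agent.X7.Jsat

/-- A 0-1 matrix with `n` rows and `m` columns; `true` is the entry 1. -/
abbrev BinMat (n m : ℕ) := Matrix (Fin n) (Fin m) Bool

/-- `A` contains `M`: some submatrix of `A` (rows and columns in their original order) has a 1
wherever `M` has a 1. -/
def Contains {n m k l : ℕ} (A : BinMat n m) (M : BinMat k l) : Prop :=
  ∃ (f : Fin k → Fin n) (g : Fin l → Fin m), StrictMono f ∧ StrictMono g ∧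
    ∀ i j, M i j = true → A (f i) (g j) = true

/-- The number of 1-entries. -/
def weight {n m : ℕ} (A : BinMat n m) : ℕ :=
  (Finset.univ.filter (fun x : Fin n × Fin m => A x.1 x.2 = true)).card

/-- The matrix `A` with its entry at `(i, j)` changed to 1. -/
def setOne {n m : ℕ} (A : BinMat n m) (i : Fin n) (j : Fin m) : BinMat n m :=
  fun a b => if a = i ∧ b = j then true else A a b

/-- `A` avoids `M`, and changing any 0-entry of `A` to 1 creates a copy of `M`. -/
def Saturated {n m k l : ℕ} (A : BinMat n m) (M : BinMat k l) : Prop :=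
  ¬ Contains A M ∧ ∀ i j, A i j = false → Contains (setOne A i j) M

/-- Maximum number of 1-entries of an `n × m` 0-1 matrix avoiding `M`. -/
noncomputable def ex (n m : ℕ) {k l : ℕ} (M : BinMat k l) : ℕ :=
  sSup {w | ∃ A : BinMat n m, ¬ Contains A M ∧ weight A = w}

/-- Minimum number of 1-entries of an `n × m` 0-1 matrix saturated for `M`. -/
noncomputable def sat (n m : ℕ) {k l : ℕ} (M : BinMat k l) : ℕ :=
  sInf {w | ∃ A : BinMat n m, Saturated A M ∧ weight A = w}

/-- The `s × s` permutation matrix with 1-entries exactly at the (1-based) positions `(i, i+1)`,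
`1 ≤ i ≤ s-1`, and `(s, 1)`. -/
def J (s : ℕ) : BinMat s s :=
  fun i j => decide (j.val = i.val + 1 ∨ (i.val + 1 = s ∧ j.val = 0))

/-- `F` contains a strong (induced) copy of `P` in the coordinatewise ordered grid. -/
def StrongCopy {n : ℕ} (P : Type) [LE P] (F : Finset (Fin n × Fin n)) : Prop :=
  ∃ f : P → Fin n × Fin n, Function.Injective f ∧ (∀ p, f p ∈ F) ∧ ∀ p q, p ≤ q ↔ f p ≤ f q

/-- `F` is strong `P`-free, and adding any further grid point creates a strong copy of `P`. -/
def StrongSaturated {n : ℕ} (P : Type) [LE P] (F : Finset (Fin n × Fin n)) : Prop :=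
  ¬ StrongCopy P F ∧ ∀ x, x ∉ F → StrongCopy P (insert x F)

/-- The largest size of a strong `P`-free subset of the `n × n` grid. -/
noncomputable def LaStar (n : ℕ) (P : Type) [LE P] : ℕ :=
  sSup {w | ∃ F : Finset (Fin n × Fin n), ¬ StrongCopy P F ∧ F.card = w}

/-- The smallest size of a strong `P`-saturated subset of the `n × n` grid. -/
noncomputable def satStar (n : ℕ) (P : Type) [LE P] : ℕ :=
  sInf {w | ∃ F : Finset (Fin n × Fin n), StrongSaturated P F ∧ F.card = w}

/-- The underlying set of the poset: a bottom element `a` and elements `b 0, ..., b (s-1)`. -/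
inductive Vee (s : ℕ) : Type
  | a : Vee s
  | b (i : Fin s) : Vee s

/-- The order: `a < b i` for every `i`, and no other strict relations. -/
instance (s : ℕ) : PartialOrder (Vee s) where
  le x y := x = Vee.a ∨ x = y
  le_refl x := Or.inr rfl
  le_trans x y z h1 h2 := by
    rcases h1 with h1 | h1
    · exact Or.inl h1
    · rw [h1]; exact h2
  le_antisymm x y h1 h2 := by
    rcases h1 with h1 | h1
    · rcases h2 with h2 | h2
      · rw [h1, h2]
      · exact h2.symm
    · exact h1

theorem vee_le {s : ℕ} (x y : Vee s) : x ≤ y ↔ x = Vee.a ∨ x = y := Iff.rfl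

/-! ### The matrix side -/

/-- The matrix with given set of ones. -/
def mat {n m : ℕ} (F : Finset (Fin n × Fin m)) : BinMat n m := fun i j => decide ((i, j) ∈ F)

/-- The set of ones of a matrix. -/
def ones {n m : ℕ} (A : BinMat n m) : Finset (Fin n × Fin m) :=
  Finset.univ.filter (fun x : Fin n × Fin m => A x.1 x.2 = true)

theorem mat_ones {n m : ℕ} (A : BinMat n m) : mat (ones A) = A := by
  funext i j
  simp [mat, ones]

theorem ones_mat {n m : ℕ} (F : Finset (Fin n × Fin m)) : ones (mat F) = F := by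
  ext x
  simp [mat, ones]

theorem mat_apply {n m : ℕ} (F : Finset (Fin n × Fin m)) (i : Fin n) (j : Fin m) :
    mat F i j = true ↔ (i, j) ∈ F := by simp [mat]

theorem setOne_mat {n m : ℕ} (F : Finset (Fin n × Fin m)) (i : Fin n) (j : Fin m) :
    setOne (mat F) i j = mat (insert (i, j) F) := by
  funext a b
  unfold setOne mat
  by_cases h : a = i ∧ b = j
  · simp [h]
  · have h' : ¬ ((a, b) = (i, j)) := fun h2 => h (by simpa using h2)
    rw [if_neg h]
    simp [h']

/-- Reflection of the columns. -/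
def phiJ (n : ℕ) : Fin n × Fin n → ℕ × ℕ := fun x => (x.1.val, n - 1 - x.2.val)

theorem phiJ_inj (n : ℕ) : Function.Injective (phiJ n) := by
  rintro ⟨⟨x, hx⟩, ⟨y, hy⟩⟩ ⟨⟨x', hx'⟩, ⟨y', hy'⟩⟩ h
  simp only [phiJ, Prod.mk.injEq] at h
  simp only [Prod.mk.injEq, Fin.mk.injEq]
  omega

theorem con_of_contains {s n : ℕ} (hs : 2 ≤ s) (F : Finset (Fin n × Fin n))
    (h : Contains (mat F) (J s)) : Con 0 (s - 1 + 0) (F.image (phiJ n)) := by
  obtain ⟨f, g, hf, hg, hfg⟩ := h
  have hone : ∀ i j : Fin s, (j.val = i.val + 1 ∨ (i.val + 1 = s ∧ j.val = 0)) →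
      (f i, g j) ∈ F := by
    intro i j hij
    rw [← mat_apply]
    exact hfg i j (by simp only [J, decide_eq_true_eq]; exact hij)
  refine ⟨phiJ n (f ⟨s - 1, by omega⟩, g ⟨0, by omega⟩), ?_, ?_⟩
  · exact Finset.mem_image_of_mem _ (hone _ _ (Or.inr ⟨by simp only; omega, rfl⟩))
  · refine ⟨fun k => if h : k < s then (f ⟨k, h⟩).val else 0,
      fun k => if h : k + 1 < s then n - 1 - (g ⟨k + 1, h⟩).val else 0, ?_, ?_⟩
    · intro k hk
      have h1 : k < s := by omega
      have h2 : k + 1 < s := by omega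
      have h3 : k + 1 + 1 < s := by omega
      simp only [h1, h2, h3, dif_pos]
      have h4 : f ⟨k, h1⟩ < f ⟨k + 1, h2⟩ := hf (by rw [Fin.lt_def]; simp only; omega)
      have h5 : g ⟨k + 1, h2⟩ < g ⟨k + 1 + 1, h3⟩ := hg (by rw [Fin.lt_def]; simp only; omega)
      rw [Fin.lt_def] at h4 h5
      have h6 := (g ⟨k + 1 + 1, h3⟩).isLt
      omega
    · intro k hk
      have h1 : k < s := by omega
      have h2 : k + 1 < s := by omega
      simp only [h1, h2, dif_pos]
      have h4 : f ⟨k, h1⟩ < f ⟨s - 1, by omega⟩ := hf (by rw [Fin.lt_def]; simp only; omega)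
      have h5 : g ⟨0, by omega⟩ < g ⟨k + 1, h2⟩ := hg (by rw [Fin.lt_def]; simp only; omega)
      rw [Fin.lt_def] at h4 h5
      have h6 := (g ⟨k + 1, h2⟩).isLt
      refine ⟨?_, ?_, ?_⟩
      · exact Finset.mem_image_of_mem (phiJ n) (hone ⟨k, h1⟩ ⟨k + 1, h2⟩ (Or.inl rfl))
      · simp only [phiJ]
        omega
      · simp only [phiJ]
        omega

theorem contains_of_con {s n : ℕ} (hs : 2 ≤ s) (F : Finset (Fin n × Fin n))
    (h : Con 0 (s - 1 + 0) (F.image (phiJ n))) : Contains (mat F) (J s) := by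
  obtain ⟨x, hx, a, b, h1, h2⟩ := h
  rw [Finset.mem_image] at hx
  obtain ⟨y, hy, rfl⟩ := hx
  have h3 : ∀ k : Fin (s - 1), ∃ z ∈ F, phiJ n z = (a k, b k) := by
    intro k
    obtain ⟨h4, -, -⟩ := h2 k.val (by have := k.isLt; omega)
    rw [Finset.mem_image] at h4
    exact h4
  choose z hz hz' using h3
  have hz1 : ∀ k : Fin (s - 1), (z k).1.val = a k := by
    intro k
    have := congrArg Prod.fst (hz' k)
    exact this
  have hz2 : ∀ k : Fin (s - 1), n - 1 - (z k).2.val = b k := by
    intro k
    have := congrArg Prod.snd (hz' k)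
    exact this
  refine ⟨fun k => if h : k.val < s - 1 then (z ⟨k.val, h⟩).1 else y.1,
    fun k => if h : k.val = 0 then y.2 else (z ⟨k.val - 1, by have := k.isLt; omega⟩).2,
    ?_, ?_, ?_⟩
  · intro k k' hkk'
    rw [Fin.lt_def] at hkk'
    have hk'' := k'.isLt
    have hk1 : k.val < s - 1 := by omega
    simp only [hk1, dif_pos]
    obtain ⟨-, h5, -⟩ := h2 k.val (by omega)
    by_cases hk2 : k'.val < s - 1
    · simp only [hk2, dif_pos]
      rw [Fin.lt_def, hz1, hz1]
      have h6 := h1.gap k.val (k'.val - k.val) (by omega)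
      have e : k.val + (k'.val - k.val) = k'.val := by omega
      rw [e] at h6
      simp only
      omega
    · simp only [hk2, dif_neg, not_false_eq_true]
      rw [Fin.lt_def, hz1]
      simpa [phiJ] using h5
  · intro k k' hkk'
    rw [Fin.lt_def] at hkk'
    have hk'' := k'.isLt
    have hk1 : ¬ k'.val = 0 := by omega
    simp only [hk1, dif_neg, not_false_eq_true]
    obtain ⟨-, -, h5⟩ := h2 (k'.val - 1) (by omega)
    have h6 := hz2 ⟨k'.val - 1, by omega⟩
    simp only at h6
    have h6' := (z ⟨k'.val - 1, by omega⟩).2.isLt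
    by_cases hk2 : k.val = 0
    · simp only [hk2, dif_pos]
      rw [Fin.lt_def]
      simp only [phiJ] at h5
      have := y.2.isLt
      omega
    · simp only [hk2, dif_neg, not_false_eq_true]
      rw [Fin.lt_def]
      have h7 := hz2 ⟨k.val - 1, by omega⟩
      simp only at h7
      have h8 := h1.gap (k.val - 1) (k'.val - k.val) (by omega)
      have e : k.val - 1 + (k'.val - k.val) = k'.val - 1 := by omega
      rw [e] at h8
      omega
  · intro i j hij
    rw [mat_apply]
    simp only [J, decide_eq_true_eq] at hij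
    have hi := i.isLt
    have hj := j.isLt
    rcases hij with hij | ⟨hij, hj0⟩
    · have hi1 : i.val < s - 1 := by omega
      have hj1 : ¬ j.val = 0 := by omega
      simp only [hi1, hj1, dif_pos, dif_neg, not_false_eq_true]
      have e : (⟨j.val - 1, by omega⟩ : Fin (s - 1)) = ⟨i.val, hi1⟩ := by
        rw [Fin.mk.injEq]; omega
      rw [e]
      exact hz _
    · have hi1 : ¬ i.val < s - 1 := by omega
      simp only [hi1, hj0, dif_pos, dif_neg, not_false_eq_true]
      exact hy

/-! ### The poset side -/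

/-- Reflection of both coordinates. -/
def phiV (n : ℕ) : Fin n × Fin n → ℕ × ℕ := fun x => (n - 1 - x.1.val, n - 1 - x.2.val)

theorem phiV_inj (n : ℕ) : Function.Injective (phiV n) := by
  rintro ⟨⟨x, hx⟩, ⟨y, hy⟩⟩ ⟨⟨x', hx'⟩, ⟨y', hy'⟩⟩ h
  simp only [phiV, Prod.mk.injEq] at h
  simp only [Prod.mk.injEq, Fin.mk.injEq]
  omega

theorem phiV_le {n : ℕ} (x y : Fin n × Fin n) :
    x ≤ y ↔ (phiV n y).1 ≤ (phiV n x).1 ∧ (phiV n y).2 ≤ (phiV n x).2 := by
  rw [Prod.le_def, Fin.le_def, Fin.le_def]
  simp only [phiV]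
  have h1 := x.1.isLt
  have h2 := x.2.isLt
  have h3 := y.1.isLt
  have h4 := y.2.isLt
  omega

theorem con_of_copy {s n : ℕ} (F : Finset (Fin n × Fin n))
    (h : StrongCopy (Vee s) F) : Con 1 s (F.image (phiV n)) := by
  classical
  obtain ⟨f, hf1, hf2, hf3⟩ := h
  refine ⟨phiV n (f Vee.a), Finset.mem_image_of_mem _ (hf2 _), ?_⟩
  set C : Finset (ℕ × ℕ) := (Finset.univ : Finset (Fin s)).image (fun i => phiV n (f (Vee.b i)))
    with hC
  have hCcard : C.card = s := by
    rw [hC, Finset.card_image_of_injective, Finset.card_univ, Fintype.card_fin]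
    intro i j hij
    have h1 := hf1 (phiV_inj n hij)
    simpa using h1
  have hch : ∀ x ∈ C, ∀ y ∈ C, x ≠ y → (x.1 < y.1 ∧ y.2 < x.2) ∨ (y.1 < x.1 ∧ x.2 < y.2) := by
    intro x hx y hy hxy
    rw [hC, Finset.mem_image] at hx hy
    obtain ⟨i, -, rfl⟩ := hx
    obtain ⟨j, -, rfl⟩ := hy
    have hij : Vee.b i ≠ Vee.b j := fun h => hxy (by rw [h])
    have h1 : ¬ (f (Vee.b i) ≤ f (Vee.b j)) := by
      rw [← hf3, vee_le]
      rintro (h | h)
      · simp at h
      · exact hij h
    have h2 : ¬ (f (Vee.b j) ≤ f (Vee.b i)) := by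
      rw [← hf3, vee_le]
      rintro (h | h)
      · simp at h
      · exact hij h.symm
    rw [phiV_le] at h1 h2
    omega
  obtain ⟨a, b, h1, h2⟩ := chain_of_finset C hch
  rw [hCcard] at h1 h2
  refine ⟨a, b, h1, fun k hk => ?_⟩
  have h3 := h2 k hk
  rw [hC, Finset.mem_image] at h3
  obtain ⟨i, -, hi⟩ := h3
  have h4 : f Vee.a ≤ f (Vee.b i) := (hf3 _ _).1 (Or.inl rfl)
  rw [phiV_le, hi] at h4
  simp only at h4
  refine ⟨?_, by omega, by omega⟩
  show (a k, b k) ∈ Finset.image (phiV n) F
  rw [← hi]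
  exact Finset.mem_image_of_mem _ (hf2 _)

theorem copy_of_con {s n : ℕ} (hs : 2 ≤ s) (F : Finset (Fin n × Fin n))
    (h : Con 1 s (F.image (phiV n))) : StrongCopy (Vee s) F := by
  obtain ⟨x, hx, a, b, h1, h2⟩ := h
  rw [Finset.mem_image] at hx
  obtain ⟨y, hy, rfl⟩ := hx
  have h3 : ∀ k : Fin s, ∃ z ∈ F, phiV n z = (a k, b k) := by
    intro k
    obtain ⟨h4, -, -⟩ := h2 k.val k.isLt
    rw [Finset.mem_image] at h4
    exact h4
  choose z hz hz' using h3
  set f : Vee s → Fin n × Fin n := fun p => match p with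
    | Vee.a => y
    | Vee.b i => z i with hf
  have hgap : ∀ k l : Fin s, k < l → a k < a l ∧ b l < b k := by
    intro k l hkl
    rw [Fin.lt_def] at hkl
    have h6 := h1.gap k.val (l.val - k.val) (by have := l.isLt; omega)
    have e : k.val + (l.val - k.val) = l.val := by omega
    rw [e] at h6
    omega
  have hin : ∀ k : Fin s, a k ≤ (phiV n y).1 ∧ b k ≤ (phiV n y).2 := by
    intro k
    obtain ⟨-, h4, h5⟩ := h2 k.val k.isLt
    omega
  have hord : ∀ p q : Vee s, p ≤ q ↔ f p ≤ f q := by
    intro p q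
    rw [vee_le, phiV_le]
    rcases p with _ | i <;> rcases q with _ | j
    · simp
    · simp only [true_or, true_iff, hf]
      rw [hz']
      exact hin j
    · simp only [hf, reduceCtorEq, false_or, false_iff]
      rw [hz']
      simp only
      intro hcon
      have h4 := hin i
      -- another index
      obtain ⟨j, hj⟩ : ∃ j : Fin s, j ≠ i := by
        rcases Nat.eq_zero_or_pos i.val with h0 | h0
        · exact ⟨⟨1, by omega⟩, fun h => by rw [← h] at h0; simp at h0⟩
        · exact ⟨⟨0, by omega⟩, fun h => by rw [← h] at h0; simp at h0⟩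
      have h5 := hin j
      rcases lt_or_gt_of_ne hj with h6 | h6
      · have := hgap j i h6
        omega
      · have := hgap i j h6
        omega
    · simp only [hf, reduceCtorEq, false_or, Vee.b.injEq]
      rw [hz', hz']
      simp only
      constructor
      · rintro rfl
        exact ⟨le_rfl, le_rfl⟩
      · intro h4
        by_contra h5
        rcases lt_or_gt_of_ne h5 with h6 | h6
        · have := hgap i j h6
          omega
        · have := hgap j i h6
          omega
  refine ⟨f, ?_, ?_, hord⟩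
  · intro p q hpq
    have h4 : p ≤ q := by rw [hord, hpq]
    have h5 : q ≤ p := by rw [hord, hpq]
    exact le_antisymm h4 h5
  · intro p
    rcases p with _ | i
    · exact hy
    · exact hz i

/-! ### The result -/

/-- For all `s ≥ 3` and all `n` the four numbers are equal; their common value is
`n^2 - (n - s + 1)^2` (truncated subtraction inside the second square), and it is the size of every
`J_s`-saturated matrix and of every strong `∨_s`-saturated set. -/
theorem result (s : ℕ) (hs : 3 ≤ s) (n : ℕ) :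
    sat n n (J s) = ex n n (J s) ∧
    ex n n (J s) = satStar n (Vee s) ∧
    satStar n (Vee s) = LaStar n (Vee s) ∧
    LaStar n (Vee s) = n ^ 2 - (n + 1 - s) ^ 2 ∧
    (∀ A : BinMat n n, Saturated A (J s) → weight A = n ^ 2 - (n + 1 - s) ^ 2) ∧
    (∀ F : Finset (Fin n × Fin n), StrongSaturated (Vee s) F →
      F.card = n ^ 2 - (n + 1 - s) ^ 2) := by
  classical
  have hns : n - (s - 1) = n + 1 - s := by omega
  -- matrices
  have hJ : ∀ F : Finset (Fin n × Fin n), ¬ Contains (mat F) (J s) →
      (∀ x, x ∉ F → Contains (mat (insert x F)) (J s)) → F.card = n ^ 2 - (n + 1 - s) ^ 2 := by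
    intro F h1 h2
    rw [← hns]
    refine count_transfer (e := 0) (r := s - 1) (by omega) (by omega) (phiJ n) (phiJ_inj n)
      ?_ ?_ F ?_ ?_
    · intro x
      have h3 := x.1.isLt
      simp only [phiJ]
      omega
    · intro i j hi hj
      refine ⟨(⟨i, hi⟩, ⟨n - 1 - j, by omega⟩), ?_⟩
      simp only [phiJ, Prod.mk.injEq, true_and]
      omega
    · intro h
      exact h1 (contains_of_con (by omega) F h)
    · intro x hx
      exact con_of_contains (by omega) _ (h2 x hx)
  have hV : ∀ F : Finset (Fin n × Fin n), ¬ StrongCopy (Vee s) F →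
      (∀ x, x ∉ F → StrongCopy (Vee s) (insert x F)) → F.card = n ^ 2 - (n + 1 - s) ^ 2 := by
    intro F h1 h2
    rw [← hns]
    have e : s - 1 + 1 = s := by omega
    refine count_transfer (e := 1) (r := s - 1) (by omega) (by omega) (phiV n) (phiV_inj n)
      ?_ ?_ F ?_ ?_
    · intro x
      simp only [phiV]
      omega
    · intro i j hi hj
      refine ⟨(⟨n - 1 - i, by omega⟩, ⟨n - 1 - j, by omega⟩), ?_⟩
      simp only [phiV, Prod.mk.injEq]
      omega
    · rw [e]
      intro h
      exact h1 (copy_of_con (by omega) F h)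
    · intro x hx
      rw [e]
      exact con_of_copy _ (h2 x hx)
  have hJ0 : ¬ Contains (mat (∅ : Finset (Fin n × Fin n))) (J s) := by
    rintro ⟨f, g, -, -, h⟩
    have h1 := h ⟨0, by omega⟩ ⟨1, by omega⟩ (by simp [J])
    simp [mat] at h1
  have hV0 : ¬ StrongCopy (Vee s) (∅ : Finset (Fin n × Fin n)) := by
    rintro ⟨f, -, h, -⟩
    have := h Vee.a
    simp at this
  have hsatJ : ∀ A : BinMat n n, Saturated A (J s) ↔
      (¬ Contains (mat (ones A)) (J s) ∧
        ∀ x, x ∉ ones A → Contains (mat (insert x (ones A))) (J s)) := by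
    intro A
    unfold Saturated
    rw [mat_ones]
    refine and_congr_right fun _ => ?_
    constructor
    · rintro h ⟨i, j⟩ hx
      have h1 : A i j = false := by
        by_contra h2
        apply hx
        simp only [ones, Finset.mem_filter, Finset.mem_univ, true_and]
        simpa using h2
      have h2 := h i j h1
      rw [← setOne_mat, mat_ones]
      exact h2
    · intro h i j hij
      have h1 : (i, j) ∉ ones A := by
        simp [ones, hij]
      have h2 := h _ h1
      rw [← setOne_mat, mat_ones] at h2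
      exact h2
  obtain ⟨j1, j2⟩ := sup_inf (fun F : Finset (Fin n × Fin n) => Contains (mat F) (J s))
    (n ^ 2 - (n + 1 - s) ^ 2) hJ0 hJ
  obtain ⟨v1, v2⟩ := sup_inf (fun F : Finset (Fin n × Fin n) => StrongCopy (Vee s) F)
    (n ^ 2 - (n + 1 - s) ^ 2) hV0 hV
  have hsat : sat n n (J s) = n ^ 2 - (n + 1 - s) ^ 2 := by
    rw [← j1]
    unfold sat
    congr 1
    ext w
    constructor
    · rintro ⟨A, h1, h2⟩
      exact ⟨ones A, (hsatJ A).1 h1, h2⟩
    · rintro ⟨F, h1, h2⟩
      refine ⟨mat F, ?_, ?_⟩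
      · rw [hsatJ, ones_mat]
        exact h1
      · rw [← h2]
        exact congrArg Finset.card (ones_mat F)
  have hex : ex n n (J s) = n ^ 2 - (n + 1 - s) ^ 2 := by
    rw [← j2]
    unfold ex
    congr 1
    ext w
    constructor
    · rintro ⟨A, h1, h2⟩
      refine ⟨ones A, ?_, h2⟩
      show ¬ Contains (mat (ones A)) (J s)
      rw [mat_ones]
      exact h1
    · rintro ⟨F, h1, h2⟩
      refine ⟨mat F, h1, ?_⟩
      rw [← h2]
      exact congrArg Finset.card (ones_mat F)
  have hsS : satStar n (Vee s) = n ^ 2 - (n + 1 - s) ^ 2 := v1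
  have hLa : LaStar n (Vee s) = n ^ 2 - (n + 1 - s) ^ 2 := v2
  refine ⟨by rw [hsat, hex], by rw [hex, hsS], by rw [hsS, hLa], hLa, ?_, ?_⟩
  · intro A hA
    have h1 := (hsatJ A).1 hA
    exact hJ _ h1.1 h1.2
  · intro F hF
    exact hV F hF.1 hF.2

end Pool.Agent.Results.MP_eab1c6_co.FourNumbers
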